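import Mathlib

namespace Pool.Agent.Results.MP_ccf8bc_lc.SetSpectra

open FirstOrder Cardinal
open scoped FirstOrder

universe u

/-- An abstract elementary class, given by its members and its `K`-embeddings
(`f : M → N` is a `K`-embedding when `M, N ∈ K` and `f[M] ≤_K N`). -/
structure AEC (L : FirstOrder.Language.{u, u}) where
  mem : ∀ (M : Type u) [L.Structure M], Prop
  emb : ∀ {M N : Type u} [L.Structure M] [L.Structure N], (M ↪[L] N) → Prop
  emb_mem : ∀ {M N : Type u} [L.Structure M] [L.Structure N] (f : M ↪[L] N),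
    emb f → mem M ∧ mem N
  emb_equiv : ∀ {M N : Type u} [L.Structure M] [L.Structure N] (e : M ≃[L] N),
    mem M → emb e.toEmbedding
  emb_comp : ∀ {M N R : Type u} [L.Structure M] [L.Structure N] [L.Structure R]
    (g : N ↪[L] R) (f : M ↪[L] N), emb g → emb f → emb (g.comp f)
  coherence : ∀ {M N R : Type u} [L.Structure M] [L.Structure N] [L.Structure R]
    (g : N ↪[L] R) (f : M ↪[L] N), emb g → emb (g.comp f) → emb f
  chain_union : ∀ {N : Type u} [L.Structure N] {ι : Type u} [LinearOrder ι] [Nonempty ι]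
    (A : ι → L.Substructure N) (hA : Monotone A),
    (∀ i j (h : i ≤ j), emb (Language.Substructure.inclusion (hA h))) →
    ∀ i, emb (Language.Substructure.inclusion (le_iSup A i))
  chain_bound : ∀ {N : Type u} [L.Structure N] {ι : Type u} [LinearOrder ι] [Nonempty ι]
    (A : ι → L.Substructure N), Monotone A →
    (∀ i, emb (A i).subtype) → emb (⨆ i, A i).subtype
  ls : ∃ κ : Cardinal.{u}, ℵ₀ ≤ κ ∧ L.card ≤ κ ∧ ∀ (N : Type u) [L.Structure N], mem N →
    ∀ X : Set N, ∃ A : L.Substructure N, X ⊆ A ∧ emb A.subtype ∧ #A ≤ #X + κ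

/-- Amalgamation in `lam`. -/
def AEC.AP {L : FirstOrder.Language.{u, u}} (K : AEC L) (lam : Cardinal.{u}) : Prop :=
  ∀ (M₀ M₁ M₂ : Type u) [L.Structure M₀] [L.Structure M₁] [L.Structure M₂]
    (f₁ : M₀ ↪[L] M₁) (f₂ : M₀ ↪[L] M₂),
    #M₀ = lam → #M₁ = lam → #M₂ = lam → K.emb f₁ → K.emb f₂ →
    ∃ (N : Type u) (_ : L.Structure N) (g₁ : M₁ ↪[L] N) (g₂ : M₂ ↪[L] N),
      #N = lam ∧ K.emb g₁ ∧ K.emb g₂ ∧ g₁.comp f₁ = g₂.comp f₂

/-- `K` has a member of cardinality `lam`. -/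
def AEC.HasModel {L : FirstOrder.Language.{u, u}} (K : AEC L) (lam : Cardinal.{u}) : Prop :=
  ∃ (M : Type u) (_ : L.Structure M), K.mem M ∧ #M = lam

/-! ### The language with two unary predicates -/

inductive Rel : ℕ → Type u
  | P : Rel 1
  | Q : Rel 1

@[reducible] def LPQ : FirstOrder.Language.{u, u} := ⟨fun _ => PEmpty, Rel⟩

section

variable {M N R : Type u} [LPQ.{u}.Structure M] [LPQ.{u}.Structure N] [LPQ.{u}.Structure R]

def isP (x : M) : Prop := Language.Structure.RelMap (L := LPQ.{u}) (Rel.P : LPQ.Relations 1) ![x]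
def isQ (x : M) : Prop := Language.Structure.RelMap (L := LPQ.{u}) (Rel.Q : LPQ.Relations 1) ![x]

theorem isP_map (f : M ↪[LPQ.{u}] N) (x : M) : isP (f x) ↔ isP x := by
  unfold isP
  rw [← f.map_rel]
  refine iff_of_eq (congrArg _ ?_)
  funext i
  fin_cases i
  rfl

theorem isQ_map (f : M ↪[LPQ.{u}] N) (x : M) : isQ (f x) ↔ isQ x := by
  unfold isQ
  rw [← f.map_rel]
  refine iff_of_eq (congrArg _ ?_)
  funext i
  fin_cases i
  rfl

variable (M) in
def Dec : Prop := (∃ x : M, isP x) ∨ (∃ x : M, isQ x)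

variable (M) in
def Mem (F : Set Cardinal.{u}) : Prop :=
  ¬ ((∃ x : M, isP x) ∧ (∃ x : M, isQ x)) ∧ (Dec M → #M ∈ F)

theorem Dec.map (f : M ↪[LPQ.{u}] N) (h : Dec M) : Dec N := by
  rcases h with ⟨x, hx⟩ | ⟨x, hx⟩
  · exact Or.inl ⟨f x, (isP_map f x).2 hx⟩
  · exact Or.inr ⟨f x, (isQ_map f x).2 hx⟩

theorem Dec.lift_surj (f : M ↪[LPQ.{u}] N) (hf : Function.Surjective f) (h : Dec N) : Dec M := by
  rcases h with ⟨y, hy⟩ | ⟨y, hy⟩
  · obtain ⟨x, rfl⟩ := hf y
    exact Or.inl ⟨x, (isP_map f x).1 hy⟩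
  · obtain ⟨x, rfl⟩ := hf y
    exact Or.inr ⟨x, (isQ_map f x).1 hy⟩

theorem mk_eq_of_surj (f : M ↪[LPQ.{u}] N) (hf : Function.Surjective f) : #M = #N :=
  Cardinal.mk_congr (Equiv.ofBijective f ⟨f.injective, hf⟩)

theorem Mem.of_surj {F : Set Cardinal.{u}} (f : M ↪[LPQ.{u}] N) (hf : Function.Surjective f)
    (h : Mem M F) : Mem N F := by
  refine ⟨fun ⟨⟨y, hy⟩, ⟨z, hz⟩⟩ => h.1 ?_, fun hD => ?_⟩
  · obtain ⟨x, rfl⟩ := hf y
    obtain ⟨w, rfl⟩ := hf z
    exact ⟨⟨x, (isP_map f x).1 hy⟩, ⟨w, (isQ_map f w).1 hz⟩⟩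
  · rw [← mk_eq_of_surj f hf]
    exact h.2 (hD.lift_surj f hf)

/-- The `K`-embeddings of the class. -/
def Emb (F : Set Cardinal.{u}) (κ : Cardinal.{u}) (f : M ↪[LPQ.{u}] N) : Prop :=
  Mem M F ∧ Mem N F ∧ (¬ Dec M ∨ Function.Surjective f ∨ κ < #M)

end

section

variable {N : Type u} [LPQ.{u}.Structure N] {ι : Type u} [LinearOrder ι] [Nonempty ι]

theorem mem_iSup' {A : ι → LPQ.{u}.Substructure N} (hA : Monotone A) {x : N} :
    x ∈ (⨆ i, A i) ↔ ∃ i, x ∈ A i :=
  Language.Substructure.mem_iSup_of_directed hA.directed_le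

/-- A decided union of a chain has a decided member. -/
theorem dec_member {A : ι → LPQ.{u}.Substructure N} (hA : Monotone A)
    (h : Dec ↥(⨆ i, A i)) : ∃ i, Dec (A i) := by
  rcases h with ⟨⟨x, hx⟩, hP⟩ | ⟨⟨x, hx⟩, hP⟩
  · obtain ⟨i, hi⟩ := (mem_iSup' hA).1 hx
    refine ⟨i, Or.inl ⟨⟨x, hi⟩, ?_⟩⟩
    exact (isP_map (Language.Substructure.inclusion (le_iSup A i)) ⟨x, hi⟩).1 hP
  · obtain ⟨i, hi⟩ := (mem_iSup' hA).1 hx
    refine ⟨i, Or.inr ⟨⟨x, hi⟩, ?_⟩⟩
    exact (isQ_map (Language.Substructure.inclusion (le_iSup A i)) ⟨x, hi⟩).1 hP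

theorem not_both {F : Set Cardinal.{u}} {A : ι → LPQ.{u}.Substructure N} (hA : Monotone A)
    (h : ∀ i, Mem (A i) F) :
    ¬ ((∃ x : ↥(⨆ i, A i), isP x) ∧ (∃ x : ↥(⨆ i, A i), isQ x)) := by
  rintro ⟨⟨⟨x, hx⟩, hP⟩, ⟨⟨y, hy⟩, hQ⟩⟩
  obtain ⟨i, hi⟩ := (mem_iSup' hA).1 hx
  obtain ⟨j, hj⟩ := (mem_iSup' hA).1 hy
  refine (h (max i j)).1 ⟨⟨⟨x, hA (le_max_left i j) hi⟩, ?_⟩, ⟨⟨y, hA (le_max_right i j) hj⟩, ?_⟩⟩
  · exact (isP_map (Language.Substructure.inclusion (le_iSup A (max i j)))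
      ⟨x, hA (le_max_left i j) hi⟩).1 hP
  · exact (isQ_map (Language.Substructure.inclusion (le_iSup A (max i j)))
      ⟨y, hA (le_max_right i j) hj⟩).1 hQ

end

/-- Every subset is a substructure. -/
def ofSet {N : Type u} [LPQ.{u}.Structure N] (X : Set N) : LPQ.{u}.Substructure N :=
  ⟨X, fun f => f.elim⟩

theorem card_LPQ : LPQ.{u}.card ≤ ℵ₀ := by
  have : Countable LPQ.{u}.Symbols := by
    have h1 : Countable (Σ l, LPQ.{u}.Functions l) := by
      have : IsEmpty (Σ l, LPQ.{u}.Functions l) := ⟨fun x => x.2.elim⟩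
      infer_instance
    have h2 : Countable (Σ l, LPQ.{u}.Relations l) := by
      have h3 : ∀ l, Countable (LPQ.{u}.Relations l) := by
        intro l
        refine (Function.Injective.countable (f := fun r : LPQ.{u}.Relations l =>
          match r with
          | .P => 0
          | .Q => (1 : ℕ)) ?_)
        intro a b hab
        cases a <;> cases b <;> simp_all
      infer_instance
    infer_instance
  exact Cardinal.mk_le_aleph0_iff.2 this

/-- The class of the structures in which at most one of `P`, `Q` is non-empty, and which have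
cardinality in `F` if one of them is non-empty. -/
def KF (F : Set Cardinal.{u}) (κ : Cardinal.{u}) (hκ : ℵ₀ ≤ κ)
    (hF : (∀ μ, κ < μ → μ ∈ F) ∨ (∀ μ, κ < μ → μ ∉ F)) : AEC LPQ.{u} where
  mem := fun M _ => Mem M F
  emb := fun f => Emb F κ f
  emb_mem := fun f h => ⟨h.1, h.2.1⟩
  emb_equiv := by
    intro M N _ _ e h
    have hs : Function.Surjective e.toEmbedding := e.surjective
    exact ⟨h, h.of_surj _ hs, Or.inr (Or.inl hs)⟩
  emb_comp := by
    intro M N R _ _ _ g f hg hf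
    refine ⟨hf.1, hg.2.1, ?_⟩
    rcases hf.2.2 with h | h | h
    · exact Or.inl h
    · rcases hg.2.2 with h' | h' | h'
      · exact Or.inl fun hD => h' (hD.map f)
      · exact Or.inr (Or.inl (h'.comp h))
      · exact Or.inr (Or.inr (by rw [mk_eq_of_surj f h]; exact h'))
    · exact Or.inr (Or.inr h)
  coherence := by
    intro M N R _ _ _ g f hg hgf
    refine ⟨hgf.1, hg.1, ?_⟩
    rcases hgf.2.2 with h | h | h
    · exact Or.inl h
    · refine Or.inr (Or.inl fun y => ?_)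
      obtain ⟨x, hx⟩ := h (g y)
      exact ⟨x, g.injective hx⟩
    · exact Or.inr (Or.inr h)
  chain_union := by
    intro N _ ι _ _ A hA hemb
    have hmem : ∀ i, Mem (A i) F := fun i => (hemb i i le_rfl).1
    have key : ∀ i, Dec (A i) → Function.Surjective (Language.Substructure.inclusion (le_iSup A i))
        ∨ κ < #(A i) := by
      intro i hi
      by_cases hlt : κ < #(A i)
      · exact Or.inr hlt
      · left
        rintro ⟨x, hx⟩
        obtain ⟨j, hj⟩ := (mem_iSup' hA).1 hx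
        rcases (hemb i (max i j) (le_max_left i j)).2.2 with h | h | h
        · exact (h hi).elim
        · obtain ⟨y, hy⟩ := h ⟨x, hA (le_max_right i j) hj⟩
          have hyx : (y : N) = x := congrArg Subtype.val hy
          exact ⟨y, Subtype.ext hyx⟩
        · exact (hlt h).elim
    have hU : Mem ↥(⨆ i, A i) F := by
      refine ⟨not_both hA hmem, fun hD => ?_⟩
      obtain ⟨i, hi⟩ := dec_member hA hD
      rcases key i hi with h | h
      · rw [← mk_eq_of_surj _ h]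
        exact (hmem i).2 hi
      · have h1 : κ < #↥(⨆ i, A i) := lt_of_lt_of_le h
          (Cardinal.mk_le_of_injective
            (Language.Substructure.inclusion (le_iSup A i)).injective)
        rcases hF with hF | hF
        · exact hF _ h1
        · exact (hF _ h ((hmem i).2 hi)).elim
    intro i
    refine ⟨hmem i, hU, ?_⟩
    by_cases hi : Dec (A i)
    · exact Or.inr (key i hi)
    · exact Or.inl hi
  chain_bound := by
    intro N _ ι _ _ A hA hemb
    have hmem : ∀ i, Mem (A i) F := fun i => (hemb i).1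
    have hN : Mem N F := by
      obtain ⟨i⟩ := (inferInstance : Nonempty ι)
      exact (hemb i).2.1
    have key : ∀ i, Dec (A i) → (∀ x : N, x ∈ A i) ∨ κ < #(A i) := by
      intro i hi
      rcases (hemb i).2.2 with h | h | h
      · exact (h hi).elim
      · left
        intro x
        obtain ⟨y, hy⟩ := h x
        rw [← hy]
        exact y.2
      · exact Or.inr h
    have hle : ∀ i, #(A i) ≤ #↥(⨆ i, A i) := fun i =>
      Cardinal.mk_le_of_injective (Language.Substructure.inclusion (le_iSup A i)).injective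
    have key2 : Dec ↥(⨆ i, A i) → Function.Surjective (⨆ i, A i).subtype ∨
        (κ < #↥(⨆ i, A i) ∧ #↥(⨆ i, A i) ∈ F) := by
      intro hD
      obtain ⟨i, hi⟩ := dec_member hA hD
      rcases key i hi with h | h
      · left
        intro x
        exact ⟨⟨x, (mem_iSup' hA).2 ⟨i, h x⟩⟩, rfl⟩
      · right
        have h1 := lt_of_lt_of_le h (hle i)
        refine ⟨h1, ?_⟩
        rcases hF with hF | hF
        · exact hF _ h1
        · exact (hF _ h ((hmem i).2 hi)).elim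
    refine ⟨⟨not_both hA hmem, fun hD => ?_⟩, hN, ?_⟩
    · rcases key2 hD with h | h
      · rw [mk_eq_of_surj _ h]
        exact hN.2 (hD.map (⨆ i, A i).subtype)
      · exact h.2
    · by_cases hD : Dec ↥(⨆ i, A i)
      · rcases key2 hD with h | h
        · exact Or.inr (Or.inl h)
        · exact Or.inr (Or.inr h.1)
      · exact Or.inl hD
  ls := by
    refine ⟨Order.succ κ, hκ.trans (Order.le_succ κ), ?_, ?_⟩
    · exact card_LPQ.trans (hκ.trans (Order.le_succ κ))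
    · intro N _ hN X
      by_cases hD : Dec N
      · by_cases hlt : κ < #N
        · -- take a subset of size `κ⁺`
          obtain ⟨S, hS⟩ := Cardinal.le_mk_iff_exists_set.1 (Order.succ_le_of_lt hlt)
          have hle : κ < #↥(ofSet (X ∪ S)) := by
            refine lt_of_lt_of_le (Order.lt_succ κ) ?_
            rw [← hS]
            exact Cardinal.mk_le_mk_of_subset (Set.subset_union_right)
          refine ⟨ofSet (X ∪ S), Set.subset_union_left, ⟨⟨?_, ?_⟩, hN, Or.inr (Or.inr hle)⟩, ?_⟩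
          · rintro ⟨⟨x, hx⟩, ⟨y, hy⟩⟩
            exact hN.1 ⟨⟨x, (isP_map (ofSet (X ∪ S)).subtype x).2 hx⟩,
              ⟨y, (isQ_map (ofSet (X ∪ S)).subtype y).2 hy⟩⟩
          · intro _
            rcases hF with hF | hF
            · exact hF _ hle
            · exact (hF _ hlt (hN.2 hD)).elim
          · refine (Cardinal.mk_union_le X S).trans ?_
            rw [hS]
        · refine ⟨⊤, Set.subset_univ _, ⟨?_, hN, Or.inr (Or.inl fun x => ⟨⟨x, trivial⟩, rfl⟩)⟩, ?_⟩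
          · exact Mem.of_surj (Language.Substructure.topEquiv.symm.toEmbedding)
              (Language.Substructure.topEquiv.symm.surjective) hN
          · have h1 : #↥(⊤ : LPQ.{u}.Substructure N) ≤ #N :=
              Cardinal.mk_le_of_injective (⊤ : LPQ.{u}.Substructure N).subtype.injective
            refine h1.trans ((not_lt.1 hlt).trans ((Order.le_succ κ).trans ?_))
            exact self_le_add_left _ _
      · have hX : ¬ Dec ↥(ofSet X) := fun h => hD (h.map (ofSet X).subtype)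
        refine ⟨ofSet X, subset_rfl, ⟨⟨?_, fun h => (hX h).elim⟩, hN, Or.inl hX⟩, ?_⟩
        · rintro ⟨h, -⟩
          exact hX (Or.inl h)
        · exact self_le_add_right _ _

/-- The structure on a type given by two predicates. -/
@[reducible] def mkStr (M : Type u) (p q : M → Prop) : LPQ.{u}.Structure M where
  funMap := fun f => f.elim
  RelMap := fun {_} R =>
    match R with
    | .P => fun x => p (x 0)
    | .Q => fun x => q (x 0)

/-- An embedding from an injective map that respects the predicates. -/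
def mkEmb {M N : Type u} [LPQ.{u}.Structure M] [LPQ.{u}.Structure N] (f : M → N)
    (hf : Function.Injective f) (hP : ∀ x, isP (f x) ↔ isP x) (hQ : ∀ x, isQ (f x) ↔ isQ x) :
    M ↪[LPQ.{u}] N where
  toFun := f
  inj' := hf
  map_fun' := fun f => f.elim
  map_rel' := by
    intro n R x
    cases R with
    | P =>
      have h1 : x = ![x 0] := by funext i; fin_cases i; rfl
      rw [h1]
      refine Iff.trans (iff_of_eq (congrArg _ ?_)) (hP (x 0))
      funext i; fin_cases i; rfl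
    | Q =>
      have h1 : x = ![x 0] := by funext i; fin_cases i; rfl
      rw [h1]
      refine Iff.trans (iff_of_eq (congrArg _ ?_)) (hQ (x 0))
      funext i; fin_cases i; rfl

theorem KF_hasModel (F : Set Cardinal.{u}) (κ : Cardinal.{u}) (hκ : ℵ₀ ≤ κ)
    (hF : (∀ μ, κ < μ → μ ∈ F) ∨ (∀ μ, κ < μ → μ ∉ F)) (lam : Cardinal.{u}) :
    (KF F κ hκ hF).HasModel lam := by
  refine ⟨lam.out, mkStr _ (fun _ => False) (fun _ => False), ?_, Cardinal.mk_out _⟩
  let _ := mkStr lam.out (fun _ => False) (fun _ => False)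
  have h : ¬ Dec lam.out := by
    rintro (⟨x, hx⟩ | ⟨x, hx⟩)
    · exact hx
    · exact hx
  exact ⟨fun h' => h (Or.inl h'.1), fun h' => (h h').elim⟩

theorem KF_AP (F : Set Cardinal.{u}) (κ : Cardinal.{u}) (hκ : ℵ₀ ≤ κ)
    (hF : (∀ μ, κ < μ → μ ∈ F) ∨ (∀ μ, κ < μ → μ ∉ F)) (lam : Cardinal.{u})
    (hlam : ℵ₀ ≤ lam) (h : lam ∉ F) : (KF F κ hκ hF).AP lam := by
  classical
  intro M₀ M₁ M₂ _ _ _ f₁ f₂ h₀ h₁ h₂ hf₁ hf₂
  have hD₁ : ¬ Dec M₁ := fun hD => h (h₁ ▸ hf₁.2.1.2 hD)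
  have hD₂ : ¬ Dec M₂ := fun hD => h (h₂ ▸ hf₂.2.1.2 hD)
  have hP₁ : ∀ x : M₁, ¬ isP x := fun x hx => hD₁ (Or.inl ⟨x, hx⟩)
  have hQ₁ : ∀ x : M₁, ¬ isQ x := fun x hx => hD₁ (Or.inr ⟨x, hx⟩)
  have hP₂ : ∀ x : M₂, ¬ isP x := fun x hx => hD₂ (Or.inl ⟨x, hx⟩)
  have hQ₂ : ∀ x : M₂, ¬ isQ x := fun x hx => hD₂ (Or.inr ⟨x, hx⟩)
  let N : Type u := M₁ ⊕ {y : M₂ // y ∉ Set.range f₂}
  let _ : LPQ.{u}.Structure N := mkStr N (fun _ => False) (fun _ => False)
  have hPN : ∀ x : N, ¬ isP x := fun x hx => hx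
  have hQN : ∀ x : N, ¬ isQ x := fun x hx => hx
  have hDN : ¬ Dec N := by
    rintro (⟨x, hx⟩ | ⟨x, hx⟩)
    · exact hPN x hx
    · exact hQN x hx
  have hMN : Mem N F := ⟨fun h' => hDN (Or.inl h'.1), fun h' => (hDN h').elim⟩
  let k : M₂ → N := fun y =>
    if hy : y ∈ Set.range f₂ then Sum.inl (f₁ hy.choose) else Sum.inr ⟨y, hy⟩
  have hk1 : ∀ x, k (f₂ x) = Sum.inl (f₁ x) := by
    intro x
    have hx : f₂ x ∈ Set.range f₂ := ⟨x, rfl⟩
    have : hx.choose = x := f₂.injective hx.choose_spec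
    simp only [k, hx, dif_pos]
    rw [this]
  have hk2 : ∀ y (hy : y ∉ Set.range f₂), k y = Sum.inr ⟨y, hy⟩ := by
    intro y hy
    simp only [k, hy, dif_neg, not_false_eq_true]
  have hkinj : Function.Injective k := by
    intro y z hyz
    by_cases hy : y ∈ Set.range f₂
    · obtain ⟨x, rfl⟩ := hy
      rw [hk1] at hyz
      by_cases hz : z ∈ Set.range f₂
      · obtain ⟨w, rfl⟩ := hz
        rw [hk1] at hyz
        rw [f₁.injective (Sum.inl.inj hyz)]
      · rw [hk2 z hz] at hyz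
        cases hyz
    · rw [hk2 y hy] at hyz
      by_cases hz : z ∈ Set.range f₂
      · obtain ⟨w, rfl⟩ := hz
        rw [hk1] at hyz
        cases hyz
      · rw [hk2 z hz] at hyz
        exact congrArg Subtype.val (Sum.inr.inj hyz)
  let g₁ : M₁ ↪[LPQ.{u}] N := mkEmb Sum.inl Sum.inl_injective
    (fun x => ⟨fun h' => (hPN _ h').elim, fun h' => (hP₁ x h').elim⟩)
    (fun x => ⟨fun h' => (hQN _ h').elim, fun h' => (hQ₁ x h').elim⟩)
  let g₂ : M₂ ↪[LPQ.{u}] N := mkEmb k hkinj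
    (fun x => ⟨fun h' => (hPN _ h').elim, fun h' => (hP₂ x h').elim⟩)
    (fun x => ⟨fun h' => (hQN _ h').elim, fun h' => (hQ₂ x h').elim⟩)
  refine ⟨N, inferInstance, g₁, g₂, ?_, ⟨hf₁.2.1, hMN, Or.inl hD₁⟩, ⟨hf₂.2.1, hMN, Or.inl hD₂⟩, ?_⟩
  · have e1 : #N = #M₁ + #{y : M₂ // y ∉ Set.range f₂} := by
      simp [N]
    have e2 : #{y : M₂ // y ∉ Set.range f₂} ≤ lam := by
      rw [← h₂]
      exact Cardinal.mk_subtype_le _
    rw [e1, h₁]
    exact Cardinal.add_eq_left hlam e2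
  · refine Language.Embedding.ext fun x => ?_
    show Sum.inl (f₁ x) = k (f₂ x)
    rw [hk1]

theorem KF_not_AP (F : Set Cardinal.{u}) (κ : Cardinal.{u}) (hκ : ℵ₀ ≤ κ)
    (hF : (∀ μ, κ < μ → μ ∈ F) ∨ (∀ μ, κ < μ → μ ∉ F)) (lam : Cardinal.{u})
    (hlam : ℵ₀ ≤ lam) (h : lam ∈ F) : ¬ (KF F κ hκ hF).AP lam := by
  intro hAP
  let M₀ : Type u := lam.out
  have hM₀ : #M₀ = lam := Cardinal.mk_out _
  let M₁ : Type u := Option M₀
  have hM₁ : #M₁ = lam := by
    rw [Cardinal.mk_option, hM₀]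
    exact Cardinal.add_one_eq hlam
  let s₀ : LPQ.{u}.Structure M₀ := mkStr M₀ (fun _ => False) (fun _ => False)
  let s₁ : LPQ.{u}.Structure M₁ := mkStr M₁ (fun x => x = none) (fun _ => False)
  let s₂ : LPQ.{u}.Structure M₁ := mkStr M₁ (fun _ => False) (fun x => x = none)
  let f₁ : @Language.Embedding LPQ.{u} M₀ M₁ s₀ s₁ :=
    @mkEmb M₀ M₁ s₀ s₁ some (Option.some_injective _)
      (fun x => ⟨fun h' => absurd (show (some x : M₁) = none from h') (Option.some_ne_none x),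
        fun h' => False.elim h'⟩)
      (fun x => ⟨fun h' => h', fun h' => h'⟩)
  let f₂ : @Language.Embedding LPQ.{u} M₀ M₁ s₀ s₂ :=
    @mkEmb M₀ M₁ s₀ s₂ some (Option.some_injective _)
      (fun x => ⟨fun h' => h', fun h' => h'⟩)
      (fun x => ⟨fun h' => absurd (show (some x : M₁) = none from h') (Option.some_ne_none x),
        fun h' => False.elim h'⟩)
  have hD₀ : ¬ @Dec M₀ s₀ := by
    rintro (⟨x, hx⟩ | ⟨x, hx⟩)
    · exact hx
    · exact hx
  have m₀ : @Mem M₀ s₀ F := ⟨fun h' => hD₀ (Or.inl h'.1), fun h' => (hD₀ h').elim⟩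
  have m₁ : @Mem M₁ s₁ F := by
    refine ⟨?_, fun _ => hM₁.symm ▸ h⟩
    rintro ⟨-, x, hx⟩
    exact hx
  have m₂ : @Mem M₁ s₂ F := by
    refine ⟨?_, fun _ => hM₁.symm ▸ h⟩
    rintro ⟨⟨x, hx⟩, -⟩
    exact hx
  obtain ⟨N, sN, g₁, g₂, -, hg₁, hg₂, -⟩ := @hAP M₀ M₁ M₁ s₀ s₁ s₂ f₁ f₂ hM₀ hM₁ hM₁
    ⟨m₀, m₁, Or.inl hD₀⟩ ⟨m₀, m₂, Or.inl hD₀⟩
  refine hg₁.2.1.1 ⟨⟨g₁ none, ?_⟩, ⟨g₂ none, ?_⟩⟩
  · exact (@isP_map M₁ N s₁ sN g₁ none).2 rfl
  · exact (@isQ_map M₁ N s₂ sN g₂ none).2 rfl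

/-- Every abstract elementary class has amalgamation in every finite cardinal. -/
theorem AP_finite {L : FirstOrder.Language.{u, u}} (K : AEC L) (lam : Cardinal.{u})
    (hlam : lam < ℵ₀) : K.AP lam := by
  intro M₀ M₁ M₂ _ _ _ f₁ f₂ h₀ h₁ h₂ hf₁ hf₂
  have hfin₀ : Finite M₀ := Cardinal.mk_lt_aleph0_iff.1 (h₀ ▸ hlam)
  have hfin₂ : Finite M₂ := Cardinal.mk_lt_aleph0_iff.1 (h₂ ▸ hlam)
  have hs : Function.Surjective f₂ := by
    have hcard : Nat.card M₀ = Nat.card M₂ := by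
      unfold Nat.card
      rw [h₀, h₂]
    exact ((Nat.bijective_iff_injective_and_card f₂).2 ⟨f₂.injective, hcard⟩).2
  let e : M₀ ≃[L] M₂ :=
    { Equiv.ofBijective f₂ ⟨f₂.injective, hs⟩ with
      map_fun' := fun f x => f₂.map_fun f x
      map_rel' := fun R x => f₂.map_rel R x }
  have he : ∀ x, e x = f₂ x := fun _ => rfl
  refine ⟨M₁, inferInstance, Language.Embedding.refl L M₁, f₁.comp e.symm.toEmbedding, h₁, ?_, ?_, ?_⟩
  · exact K.emb_equiv (Language.Equiv.refl L M₁) (K.emb_mem _ hf₁).2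
  · exact K.emb_comp _ _ hf₁ (K.emb_equiv e.symm (K.emb_mem _ hf₂).2)
  · refine Language.Embedding.ext fun x => ?_
    show f₁ x = f₁ (e.symm (f₂ x))
    rw [← he, Language.Equiv.symm_apply_apply]

/-- For disjoint classes `X`, `Y` of cardinals at least one of which is a set, some abstract
elementary class (with members in every cardinality) has amalgamation in every member of `X` and
fails it in every member of `Y` exactly when all members of `Y` are infinite. -/
theorem result (X Y : Set Cardinal.{u}) (hXY : Disjoint X Y) (hset : BddAbove X ∨ BddAbove Y) :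
    (∃ (L : FirstOrder.Language.{u, u}) (K : AEC L), (∀ lam, K.HasModel lam) ∧
      (∀ ν ∈ X, K.AP ν) ∧ (∀ μ ∈ Y, ¬ K.AP μ)) ↔ ∀ μ ∈ Y, ℵ₀ ≤ μ := by
  constructor
  · rintro ⟨L, K, -, -, hY⟩ μ hμ
    by_contra hlt
    exact hY μ hμ (AP_finite K μ (not_le.1 hlt))
  · intro hY
    obtain ⟨F, κ, hκ, hF, hXF, hYF⟩ : ∃ (F : Set Cardinal.{u}) (κ : Cardinal.{u}), ℵ₀ ≤ κ ∧
        ((∀ μ, κ < μ → μ ∈ F) ∨ (∀ μ, κ < μ → μ ∉ F)) ∧ (∀ ν ∈ X, ν ∉ F) ∧ (∀ μ ∈ Y, μ ∈ F) := by
      rcases hset with ⟨b, hb⟩ | ⟨b, hb⟩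
      · refine ⟨Xᶜ, max b ℵ₀, le_max_right _ _, Or.inl fun μ hμ hX => ?_, fun ν hν h => h hν,
          fun μ hμ hX => Set.disjoint_left.1 hXY hX hμ⟩
        exact absurd (hb hX) (not_le.2 (lt_of_le_of_lt (le_max_left _ _) hμ))
      · refine ⟨Y, max b ℵ₀, le_max_right _ _, Or.inr fun μ hμ hX => ?_,
          fun ν hν h => Set.disjoint_left.1 hXY hν h, fun μ hμ => hμ⟩
        exact absurd (hb hX) (not_le.2 (lt_of_le_of_lt (le_max_left _ _) hμ))
    refine ⟨LPQ.{u}, KF F κ hκ hF, KF_hasModel F κ hκ hF, fun ν hν => ?_, fun μ hμ => ?_⟩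
    · by_cases hν0 : ℵ₀ ≤ ν
      · exact KF_AP F κ hκ hF ν hν0 (hXF ν hν)
      · exact AP_finite _ ν (not_le.1 hν0)
    · exact KF_not_AP F κ hκ hF μ (hY μ hμ) (hYF μ hμ)

end Pool.Agent.Results.MP_ccf8bc_lc.SetSpectra
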